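import Pool.Agent.Q14.IC.T1

/-!
# Project IC of helper255: the continuation
-/

set_option autoImplicit false

namespace Pool.Agent.Q14.IC

open Filter Topology MeasureTheory
open Pool.Agent.Q255.IC

/-- `-log (1 - z) - z` -/
noncomputable def Rl (z : ℂ) : ℂ := -Complex.log (1 - z) - z

theorem Rl_norm {z : ℂ} {r : ℝ} (hz : ‖z‖ ≤ r) (hr : r < 1) :
    ‖Rl z‖ ≤ ‖z‖ ^ 2 * (1 - r)⁻¹ := by
  have hz1 : ‖-z‖ < 1 := by rw [norm_neg]; exact lt_of_le_of_lt hz hr
  have h1 := Complex.norm_log_one_add_sub_self_le hz1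
  have e : Rl z = -(Complex.log (1 + -z) - -z) := by
    unfold Rl
    rw [← sub_eq_add_neg]
    ring
  rw [e, norm_neg]
  rw [norm_neg] at h1
  have h2 : (1 - ‖z‖)⁻¹ ≤ (1 - r)⁻¹ :=
    inv_anti₀ (by linarith) (by linarith)
  have h3 : 0 ≤ ‖z‖ ^ 2 * (1 - r)⁻¹ := by
    have : 0 < 1 - r := by linarith
    positivity
  have h4 : ‖z‖ ^ 2 * (1 - ‖z‖)⁻¹ ≤ ‖z‖ ^ 2 * (1 - r)⁻¹ :=
    mul_le_mul_of_nonneg_left h2 (by positivity)
  linarith

/-- `p_k^(-s)` -/
noncomputable def P (k : ℕ) (s : ℂ) : ℂ := (pr k : ℂ) ^ (-s)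

theorem norm_P (k : ℕ) (s : ℂ) : ‖P k s‖ = (pr k : ℝ) ^ (-s.re) := by
  unfold P
  rw [Complex.norm_natCast_cpow_of_pos (pr_prime k).pos, Complex.neg_re]

theorem norm_P_le (k : ℕ) {s : ℂ} {σ : ℝ} (hσ : σ ≤ s.re) : ‖P k s‖ ≤ (pr k : ℝ) ^ (-σ) := by
  rw [norm_P]
  exact Real.rpow_le_rpow_of_exponent_le (one_lt_pr k).le (by linarith)

theorem pr_ge_two (k : ℕ) : (2 : ℝ) ≤ pr k := by
  exact_mod_cast (pr_prime k).two_le

theorem rpow_le_half (k : ℕ) {σ : ℝ} (hσ : 1 / 2 ≤ σ) :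
    (pr k : ℝ) ^ (-σ) ≤ (2 : ℝ) ^ (-(1 / 2) : ℝ) := by
  calc (pr k : ℝ) ^ (-σ) ≤ (2 : ℝ) ^ (-σ) :=
        Real.rpow_le_rpow_of_nonpos (by norm_num) (pr_ge_two k) (by linarith)
    _ ≤ (2 : ℝ) ^ (-(1 / 2) : ℝ) :=
        Real.rpow_le_rpow_of_exponent_le (by norm_num) (by linarith)

theorem half_lt_one : (2 : ℝ) ^ (-(1 / 2) : ℝ) < 1 :=
  Real.rpow_lt_one_of_one_lt_of_neg (by norm_num) (by norm_num)

theorem summable_pr {p : ℝ} (hp : p < -1) : Summable fun k : ℕ => (pr k : ℝ) ^ p :=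
  (Real.summable_nat_rpow.2 hp).comp_injective pr_strictMono.injective

theorem diff_P (k : ℕ) (s : ℂ) : DifferentiableAt ℂ (P k) s := by
  unfold P
  refine DifferentiableAt.const_cpow differentiableAt_id.neg (Or.inl ?_)
  exact_mod_cast (pr_prime k).ne_zero

theorem diff_Rl (k : ℕ) {e : ℂ} (he : ‖e‖ ≤ 1) {s : ℂ} (hs : 1 / 2 < s.re) :
    DifferentiableAt ℂ (fun s => Rl (e * P k s)) s := by
  have h1 : ‖-(e * P k s)‖ < 1 := by
    rw [norm_neg, norm_mul]
    calc ‖e‖ * ‖P k s‖ ≤ 1 * (pr k : ℝ) ^ (-s.re) :=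
          mul_le_mul he (norm_P k s).le (norm_nonneg _) zero_le_one
      _ ≤ (2 : ℝ) ^ (-(1 / 2) : ℝ) := by rw [one_mul]; exact rpow_le_half k hs.le
      _ < 1 := half_lt_one
  have h2 := Complex.mem_slitPlane_of_norm_lt_one h1
  rw [← sub_eq_add_neg] at h2
  have h3 : DifferentiableAt ℂ (fun s => e * P k s) s := (diff_P k s).const_mul e
  unfold Rl
  exact (((differentiableAt_const _).sub h3).clog h2).neg.sub h3

theorem Rl_bound (k : ℕ) {e : ℂ} (he : ‖e‖ ≤ 1) {s : ℂ} {σ : ℝ} (hσ : 1 / 2 < σ)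
    (hs : σ ≤ s.re) :
    ‖Rl (e * P k s)‖ ≤ (pr k : ℝ) ^ (-(2 * σ)) * (1 - (2 : ℝ) ^ (-(1 / 2) : ℝ))⁻¹ := by
  have h0 : ‖e * P k s‖ ≤ (pr k : ℝ) ^ (-σ) := by
    rw [norm_mul]
    calc ‖e‖ * ‖P k s‖ ≤ 1 * (pr k : ℝ) ^ (-σ) :=
          mul_le_mul he (norm_P_le k hs) (norm_nonneg _) zero_le_one
      _ = _ := one_mul _
  refine (Rl_norm (h0.trans (rpow_le_half k hσ.le)) half_lt_one).trans ?_
  refine mul_le_mul_of_nonneg_right ?_ (inv_nonneg.2 (sub_nonneg.2 half_lt_one.le))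
  calc ‖e * P k s‖ ^ 2 ≤ ((pr k : ℝ) ^ (-σ)) ^ 2 := pow_le_pow_left₀ (norm_nonneg _) h0 2
    _ = (pr k : ℝ) ^ (-(2 * σ)) := by
        rw [← Real.rpow_natCast, ← Real.rpow_mul (pr_pos k).le]
        congr 1
        push_cast
        ring

theorem diffOn_local {f : ℂ → ℂ}
    (h : ∀ σ R : ℝ, 1 / 2 < σ → 0 < R → DifferentiableOn ℂ f {s | σ < s.re ∧ ‖s‖ < R}) :
    DifferentiableOn ℂ f {s | 1 / 2 < s.re} := by
  intro s hs
  have hs' : 1 / 2 < s.re := hs
  obtain ⟨σ, h1, h2⟩ := exists_between hs'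
  have h3 := h σ (‖s‖ + 1) h1 (by positivity)
  have ho : IsOpen {z : ℂ | σ < z.re ∧ ‖z‖ < ‖s‖ + 1} :=
    (isOpen_lt continuous_const Complex.continuous_re).inter
      (isOpen_lt continuous_norm continuous_const)
  exact (h3.differentiableAt (ho.mem_nhds ⟨h2, by simp⟩)).differentiableWithinAt

theorem summable_Rl {e : ℕ → ℂ} (he : ∀ k, ‖e k‖ ≤ 1) {s : ℂ} (hs : 1 / 2 < s.re) :
    Summable fun k => Rl (e k * P k s) := by
  refine Summable.of_norm_bounded
    ((summable_pr (p := -(2 * s.re)) (by linarith)).mul_right _)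
    fun k => Rl_bound k (he k) hs le_rfl

theorem diffOn_Rl {e : ℕ → ℂ} (he : ∀ k, ‖e k‖ ≤ 1) :
    DifferentiableOn ℂ (fun s => ∑' k, Rl (e k * P k s)) {s | 1 / 2 < s.re} := by
  refine diffOn_local fun σ R hσ _ => ?_
  refine Complex.differentiableOn_tsum_of_summable_norm
    ((summable_pr (p := -(2 * σ)) (by linarith)).mul_right
      (1 - (2 : ℝ) ^ (-(1 / 2) : ℝ))⁻¹) (fun k s hs => ?_) ?_ fun k s hs => ?_
  · exact (diff_Rl k (he k) (lt_trans hσ hs.1)).differentiableWithinAt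
  · exact (isOpen_lt continuous_const Complex.continuous_re).inter
      (isOpen_lt continuous_norm continuous_const)
  · exact Rl_bound k (he k) hσ hs.1.le

section Abel

variable {e : ℕ → ℝ} {E : ℝ}

/-- the terms of the transformed series -/
noncomputable def ft (e : ℕ → ℝ) (k : ℕ) (s : ℂ) : ℂ :=
  ((∑ j ∈ Finset.range (k + 1), e j : ℝ) : ℂ) * (P k s - P (k + 1) s)

theorem ft_bound {C δ σ R : ℝ} (hC : 0 ≤ C) (hδ : 0 < δ) (hσ : 1 / 2 + δ < σ)
    (hB : ∀ n : ℕ, |∑ k ∈ Finset.range n, e k| ≤ C * (n : ℝ) ^ (1 / 2 + δ)) (k : ℕ) {s : ℂ}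
    (hs : σ ≤ s.re) (hR : ‖s‖ ≤ R) :
    ‖ft e k s‖ ≤ C * R / (σ - 1 / 2 - δ) *
      ((pr k : ℝ) ^ (-(σ - 1 / 2 - δ)) - (pr (k + 1) : ℝ) ^ (-(σ - 1 / 2 - δ))) := by
  obtain ⟨η, hη⟩ : ∃ η, η = σ - 1 / 2 - δ := ⟨_, rfl⟩
  have hη0 : 0 < η := by rw [hη]; linarith
  rw [← hη]
  obtain ⟨B, hBdef⟩ : ∃ B, B = ∑ j ∈ Finset.range (k + 1), e j := ⟨_, rfl⟩
  have hs0 : s ≠ 0 := by
    intro h
    rw [h, Complex.zero_re] at hs
    linarith
  have hR0 : 0 ≤ R := (norm_nonneg s).trans hR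
  have ha : (0 : ℝ) < pr k := pr_pos k
  have hab : (pr k : ℝ) ≤ pr (k + 1) := by
    exact_mod_cast pr_strictMono.monotone (Nat.le_succ k)
  have h0 : (0 : ℝ) ∉ Set.uIcc (pr k : ℝ) (pr (k + 1)) := by
    rw [Set.uIcc_of_le hab]
    intro h
    linarith [h.1]
  have hBb : |B| ≤ C * (pr k : ℝ) ^ (1 / 2 + δ) := by
    rw [hBdef]
    refine (hB (k + 1)).trans (mul_le_mul_of_nonneg_left ?_ hC)
    refine Real.rpow_le_rpow (Nat.cast_nonneg _) ?_ (by linarith)
    have := add_two_le_pr k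
    exact_mod_cast (by omega : k + 1 ≤ pr k)
  have key : ft e k s = ∫ x : ℝ in (pr k : ℝ)..(pr (k + 1)), (B : ℂ) * s * (x : ℂ) ^ (-s - 1) := by
    rw [intervalIntegral.integral_const_mul, integral_cpow (Or.inr ⟨?_, h0⟩)]
    · unfold ft P
      rw [← hBdef]
      have e1 : -s - 1 + 1 = -s := by ring
      rw [e1]
      push_cast
      field_simp
      ring
    · intro h
      apply hs0
      have : -s = 0 := by linear_combination h
      exact neg_eq_zero.1 this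
  rw [key]
  have hint : IntervalIntegrable (fun x : ℝ => C * R * x ^ (-η - 1)) volume (pr k : ℝ)
      (pr (k + 1)) :=
    (intervalIntegral.intervalIntegrable_rpow (Or.inr h0)).const_mul _
  refine (intervalIntegral.norm_integral_le_of_norm_le hab
    (g := fun x : ℝ => C * R * x ^ (-η - 1)) (Eventually.of_forall fun x hx => ?_) hint).trans ?_
  · have hx0 : 0 < x := lt_trans ha hx.1
    have hx1 : 1 ≤ x := (one_lt_pr k).le.trans hx.1.le
    rw [norm_mul, norm_mul, Complex.norm_real, Real.norm_eq_abs,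
      Complex.norm_cpow_eq_rpow_re_of_pos hx0]
    have e2 : (-s - 1).re = -s.re - 1 := by simp
    rw [e2]
    have h1 : |B| * ‖s‖ ≤ C * (pr k : ℝ) ^ (1 / 2 + δ) * R :=
      mul_le_mul hBb hR (norm_nonneg _) (by positivity)
    have h2 : (pr k : ℝ) ^ (1 / 2 + δ) ≤ x ^ (1 / 2 + δ) :=
      Real.rpow_le_rpow ha.le hx.1.le (by linarith)
    have h3 : x ^ (-s.re - 1) ≤ x ^ (-σ - 1) :=
      Real.rpow_le_rpow_of_exponent_le hx1 (by linarith)
    calc |B| * ‖s‖ * x ^ (-s.re - 1) ≤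
          (C * (pr k : ℝ) ^ (1 / 2 + δ) * R) * x ^ (-σ - 1) :=
          mul_le_mul h1 h3 (Real.rpow_nonneg hx0.le _) (by positivity)
      _ ≤ (C * x ^ (1 / 2 + δ) * R) * x ^ (-σ - 1) := by
          refine mul_le_mul_of_nonneg_right ?_ (Real.rpow_nonneg hx0.le _)
          exact mul_le_mul_of_nonneg_right (mul_le_mul_of_nonneg_left h2 hC) hR0
      _ = C * R * (x ^ (1 / 2 + δ) * x ^ (-σ - 1)) := by ring
      _ = C * R * x ^ (-η - 1) := by
          rw [← Real.rpow_add hx0, hη]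
          congr 2
          ring
  · rw [intervalIntegral.integral_const_mul, integral_rpow (Or.inr ⟨by linarith, h0⟩)]
    have e1 : -η - 1 + 1 = -η := by ring
    rw [e1]
    apply le_of_eq
    field_simp
    ring

theorem tele_summable {η K : ℝ} (hη : 0 < η) (_ : 0 ≤ K) :
    Summable fun k : ℕ => K * ((pr k : ℝ) ^ (-η) - (pr (k + 1) : ℝ) ^ (-η)) := by
  refine Summable.mul_left K ?_
  have hanti : ∀ k : ℕ, (pr (k + 1) : ℝ) ^ (-η) ≤ (pr k : ℝ) ^ (-η) := fun k =>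
    Real.rpow_le_rpow_of_nonpos (pr_pos k)
      (by exact_mod_cast pr_strictMono.monotone (Nat.le_succ k)) (by linarith)
  refine summable_of_sum_range_le (c := (pr 0 : ℝ) ^ (-η)) (fun k => sub_nonneg.2 (hanti k))
    fun n => ?_
  rw [Finset.sum_range_sub' (fun k : ℕ => (pr k : ℝ) ^ (-η))]
  have := Real.rpow_nonneg (pr_pos n).le (-η)
  linarith

/-- the hypothesis on the partial sums -/
def Small (e : ℕ → ℝ) : Prop :=
  ∀ δ : ℝ, 0 < δ → ∃ C : ℝ, ∀ n : ℕ,
    |∑ k ∈ Finset.range n, e k| ≤ C * (n : ℝ) ^ (1 / 2 + δ)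

theorem small_nonneg (he : Small e) {δ : ℝ} (hδ : 0 < δ) : ∃ C : ℝ, 0 ≤ C ∧ ∀ n : ℕ,
    |∑ k ∈ Finset.range n, e k| ≤ C * (n : ℝ) ^ (1 / 2 + δ) := by
  obtain ⟨C, hC⟩ := he δ hδ
  refine ⟨|C|, abs_nonneg _, fun n => (hC n).trans ?_⟩
  exact mul_le_mul_of_nonneg_right (le_abs_self C) (Real.rpow_nonneg (Nat.cast_nonneg _) _)

theorem summable_ft (he : Small e) {s : ℂ} (hs : 1 / 2 < s.re) : Summable fun k => ft e k s := by
  obtain ⟨C, hC0, hC⟩ := small_nonneg he (δ := (s.re - 1 / 2) / 2) (by linarith)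
  exact Summable.of_norm_bounded (tele_summable (η := s.re - 1 / 2 - (s.re - 1 / 2) / 2)
    (K := C * ‖s‖ / (s.re - 1 / 2 - (s.re - 1 / 2) / 2)) (by linarith)
    (div_nonneg (mul_nonneg hC0 (norm_nonneg _)) (by linarith)))
    fun k => ft_bound hC0 (by linarith) (by linarith) hC k le_rfl le_rfl

theorem diffOn_ft (he : Small e) :
    DifferentiableOn ℂ (fun s => ∑' k, ft e k s) {s | 1 / 2 < s.re} := by
  refine diffOn_local fun σ R hσ hR => ?_
  obtain ⟨C, hC0, hC⟩ := small_nonneg he (δ := (σ - 1 / 2) / 2) (by linarith)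
  refine Complex.differentiableOn_tsum_of_summable_norm
    (tele_summable (η := σ - 1 / 2 - (σ - 1 / 2) / 2)
    (K := C * R / (σ - 1 / 2 - (σ - 1 / 2) / 2)) (by linarith)
    (div_nonneg (mul_nonneg hC0 hR.le) (by linarith))) (fun k s hs => ?_) ?_ fun k s hs => ?_
  · refine DifferentiableAt.differentiableWithinAt ?_
    unfold ft
    exact ((diff_P k s).sub (diff_P (k + 1) s)).const_mul _
  · exact (isOpen_lt continuous_const Complex.continuous_re).inter
      (isOpen_lt continuous_norm continuous_const)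
  · exact ft_bound hC0 (by linarith) (by linarith) hC k hs.1.le hs.2.le

theorem abel_partial (s : ℂ) (n : ℕ) :
    ∑ k ∈ Finset.range n, (e k : ℂ) * P k s =
      ∑ k ∈ Finset.range n, ft e k s + ((∑ j ∈ Finset.range n, e j : ℝ) : ℂ) * P n s := by
  induction n with
  | zero => simp
  | succ n ih =>
    rw [Finset.sum_range_succ, Finset.sum_range_succ (fun k => ft e k s), ih]
    unfold ft
    rw [Finset.sum_range_succ e n]
    push_cast
    ring

theorem abel_tsum (he : Small e) (hb : ∀ k, |e k| ≤ E) {s : ℂ} (hs : 1 < s.re) :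
    (Summable fun k => (e k : ℂ) * P k s) ∧ ∑' k, (e k : ℂ) * P k s = ∑' k, ft e k s := by
  have h1 : Summable fun k => (e k : ℂ) * P k s := by
    refine Summable.of_norm_bounded ((summable_pr (p := -s.re) (by linarith)).mul_left E)
      fun k => ?_
    rw [norm_mul, Complex.norm_real, Real.norm_eq_abs, norm_P]
    exact mul_le_mul_of_nonneg_right (hb k) (Real.rpow_nonneg (pr_pos k).le _)
  refine ⟨h1, ?_⟩
  obtain ⟨C, hC0, hC⟩ := small_nonneg he (δ := 1 / 4) (by norm_num)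
  have h2 : Tendsto (fun n : ℕ => ((∑ j ∈ Finset.range n, e j : ℝ) : ℂ) * P n s) atTop (𝓝 0) := by
    have h3 : Tendsto (fun n : ℕ => C * (pr n : ℝ) ^ (-(1 / 4) : ℝ)) atTop (𝓝 (C * 0)) := by
      refine Tendsto.const_mul C ?_
      have h4 : Tendsto (fun n : ℕ => (pr n : ℝ)) atTop atTop :=
        tendsto_natCast_atTop_atTop.comp pr_strictMono.tendsto_atTop
      exact (tendsto_rpow_neg_atTop (by norm_num : (0 : ℝ) < 1 / 4)).comp h4
    rw [mul_zero] at h3
    refine squeeze_zero_norm (fun n => ?_) h3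
    rw [norm_mul, Complex.norm_real, Real.norm_eq_abs]
    have h5 : ‖P n s‖ ≤ (pr n : ℝ) ^ (-1 : ℝ) := norm_P_le n hs.le
    have h6 : (n : ℝ) ^ ((1 : ℝ) / 2 + 1 / 4) ≤ (pr n : ℝ) ^ ((1 : ℝ) / 2 + 1 / 4) := by
      refine Real.rpow_le_rpow (Nat.cast_nonneg _) ?_ (by norm_num)
      have := add_two_le_pr n
      exact_mod_cast (by omega : n ≤ pr n)
    calc |∑ j ∈ Finset.range n, e j| * ‖P n s‖ ≤
          (C * (pr n : ℝ) ^ ((1 : ℝ) / 2 + 1 / 4)) * (pr n : ℝ) ^ (-1 : ℝ) :=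
          mul_le_mul ((hC n).trans (mul_le_mul_of_nonneg_left h6 hC0)) h5 (norm_nonneg _)
            (mul_nonneg hC0 (Real.rpow_nonneg (pr_pos n).le _))
      _ = C * (pr n : ℝ) ^ (-(1 / 4) : ℝ) := by
          rw [mul_assoc, ← Real.rpow_add (pr_pos n)]
          norm_num
  have h3 := h1.hasSum.tendsto_sum_nat
  have h4 := ((summable_ft he (by linarith : 1 / 2 < s.re)).hasSum.tendsto_sum_nat).add h2
  rw [add_zero] at h4
  refine tendsto_nhds_unique h3 (h4.congr fun n => ?_)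
  rw [abel_partial]

end Abel

/-- the primes are the `pr k` -/
noncomputable def prEquiv : ℕ ≃ Nat.Primes :=
  Equiv.ofBijective (fun k => ⟨pr k, pr_prime k⟩) ⟨fun j k h => by
    have h1 : pr j = pr k := congrArg Subtype.val h
    exact pr_strictMono.injective h1, fun p => ⟨Nat.count Nat.Prime p.1, by
    apply Subtype.ext
    exact Nat.nth_count p.2⟩⟩

theorem cont : S_CONT := by
  intro N m ω hN hsm
  have hN' : (N : ℝ) ≠ 0 := by exact_mod_cast hN.ne'
  have hNC : (N : ℂ) ≠ 0 := by exact_mod_cast hN.ne'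
  have hsmall : Small (fun k => sg ω k + (m : ℝ) / N) := hsm
  have he1 : ∀ k, ‖((sg ω k : ℝ) : ℂ)‖ ≤ 1 := fun k => by
    rw [Complex.norm_real, Real.norm_eq_abs, abs_sg]
  have he0 : ∀ k : ℕ, ‖((fun _ => 1 : ℕ → ℂ) k)‖ ≤ 1 := fun k => by simp
  refine ⟨fun s => N * ∑' k, ft (fun k => sg ω k + (m : ℝ) / N) k s +
    N * ∑' k, Rl (((sg ω k : ℝ) : ℂ) * P k s) + m * ∑' k, Rl ((fun _ => 1 : ℕ → ℂ) k * P k s),
    ?_, ?_⟩
  · have ho : IsOpen {s : ℂ | 1 / 2 < s.re} := isOpen_lt continuous_const Complex.continuous_re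
    refine DifferentiableOn.analyticOnNhd ?_ ho
    exact (((diffOn_ft hsmall).const_mul _).add ((diffOn_Rl he1).const_mul _)).add
      ((diffOn_Rl he0).const_mul _)
  · intro s hs
    have hs2 : 1 / 2 < s.re := by linarith
    have hP : Summable fun k => P k s := by
      refine Summable.of_norm_bounded (summable_pr (p := -s.re) (by linarith)) fun k => ?_
      rw [norm_P]
    have hSP : Summable fun k => ((sg ω k : ℝ) : ℂ) * P k s := by
      refine Summable.of_norm_bounded (summable_pr (p := -s.re) (by linarith)) fun k => ?_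
      rw [norm_mul, norm_P]
      calc ‖((sg ω k : ℝ) : ℂ)‖ * (pr k : ℝ) ^ (-s.re) ≤ 1 * (pr k : ℝ) ^ (-s.re) :=
            mul_le_mul_of_nonneg_right (he1 k) (Real.rpow_nonneg (pr_pos k).le _)
        _ = _ := one_mul _
    have hR1 := summable_Rl he1 hs2
    have hR0 := summable_Rl he0 hs2
    have hb : ∀ k, |sg ω k + (m : ℝ) / N| ≤ 1 + (m : ℝ) / N := by
      intro k
      refine (abs_add_le _ _).trans ?_
      rw [abs_sg, abs_of_nonneg (by positivity)]
    obtain ⟨-, hA⟩ := abel_tsum hsmall hb hs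
    have hA' : N * ∑' k, ft (fun k => sg ω k + (m : ℝ) / N) k s =
        N * ∑' k, ((sg ω k : ℝ) : ℂ) * P k s + m * ∑' k, P k s := by
      rw [← hA]
      have e1 : ∀ k, (((sg ω k + (m : ℝ) / N : ℝ)) : ℂ) * P k s =
          ((sg ω k : ℝ) : ℂ) * P k s + (m : ℂ) / N * P k s := by
        intro k
        push_cast
        ring
      rw [tsum_congr e1, hSP.tsum_add (hP.mul_left _), tsum_mul_left]
      field_simp
    -- zeta
    have hz : riemannZeta s = Complex.exp (∑' k, P k s +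
        ∑' k, Rl ((fun _ => 1 : ℕ → ℂ) k * P k s)) := by
      rw [← riemannZeta_eulerProduct_exp_log hs, ← hP.tsum_add hR0,
        ← prEquiv.tsum_eq]
      congr 1
      refine tsum_congr fun k => ?_
      unfold Rl
      show -Complex.log (1 - (pr k : ℂ) ^ (-s)) = _
      rw [one_mul]
      unfold P
      ring
    -- the product
    have hL : LF (fun _ _ => (1 : ℂ) : ℕ → Fin N → ℂ) ω s =
        Complex.exp (N * (∑' k, ((sg ω k : ℝ) : ℂ) * P k s +
          ∑' k, Rl (((sg ω k : ℝ) : ℂ) * P k s))) := by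
      have h1 : HasSum (fun k => (N : ℂ) * (-Complex.log (1 - ((sg ω k : ℝ) : ℂ) * P k s)))
          (N * (∑' k, ((sg ω k : ℝ) : ℂ) * P k s + ∑' k, Rl (((sg ω k : ℝ) : ℂ) * P k s))) := by
        have h2 := (hSP.hasSum.add hR1.hasSum).mul_left (N : ℂ)
        refine h2.congr_fun ?_ 
        intro k
        unfold Rl
        ring
      have h3 := h1.cexp.tprod_eq
      rw [← h3]
      unfold LF
      refine tprod_congr fun k => ?_
      have hne : (1 - ((sg ω k : ℝ) : ℂ) * P k s) ≠ 0 := by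
        intro h
        have h4 : ‖((sg ω k : ℝ) : ℂ) * P k s‖ < 1 := by
          rw [norm_mul]
          calc ‖((sg ω k : ℝ) : ℂ)‖ * ‖P k s‖ ≤ 1 * (pr k : ℝ) ^ (-s.re) :=
                mul_le_mul (he1 k) (norm_P k s).le (norm_nonneg _) zero_le_one
            _ ≤ (2 : ℝ) ^ (-(1 / 2) : ℝ) := by rw [one_mul]; exact rpow_le_half k hs2.le
            _ < 1 := half_lt_one
        rw [← sub_eq_zero.1 h, norm_one] at h4
        exact lt_irrefl _ h4
      show (∏ _j : Fin N, (1 - ((sg ω k : ℝ) : ℂ) * 1 * (pr k : ℂ) ^ (-s)))⁻¹ =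
        Complex.exp (N * (-Complex.log (1 - ((sg ω k : ℝ) : ℂ) * P k s)))
      rw [Finset.prod_const, Finset.card_univ, Fintype.card_fin, Complex.exp_nat_mul,
        Complex.exp_neg, Complex.exp_log hne, inv_pow, mul_one]
      rfl
    rw [hL, hz, ← Complex.exp_nat_mul, ← Complex.exp_add]
    beta_reduce
    rw [hA']
    congr 1
    ring

end Pool.Agent.Q14.IC
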