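import Pool.Agent.Q225.IC.Stm

/-! # MP_ea601a_lc, project IC: jobs SID, CNT, GEN -/

open Finset

namespace Pool.Agent.Q225.IC

theorem t_SID : S_SID := by
  intro V Z _ _ f g N hf hg hN
  have hN0 : ∀ v z, 0 ≤ N v z := fun v z => by rcases hN v z with h | h <;> rw [h] <;> norm_num
  set d : V → ℝ := fun v => ∑ z1, g z1 * N v z1 with hd
  set c : Z → ℝ := fun z => ∑ v1, f v1 * N v1 z with hc
  set W : V × Z → ℝ := fun x => f x.1 * g x.2 * N x.1 x.2 with hW
  have hd0 : ∀ v, 0 ≤ d v := fun v => Finset.sum_nonneg fun z _ => mul_nonneg (hg z) (hN0 v z)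
  have hc0 : ∀ z, 0 ≤ c z := fun z => Finset.sum_nonneg fun v _ => mul_nonneg (hf v) (hN0 v z)
  have hW0 : ∀ x, 0 ≤ W x := fun x => mul_nonneg (mul_nonneg (hf _) (hg _)) (hN0 _ _)
  have hpos : ∀ x : V × Z, W x ≠ 0 → 0 < d x.1 ∧ 0 < c x.2 := by
    intro x hx
    have h1 : f x.1 ≠ 0 := fun h => hx (by simp only [hW]; rw [h]; ring)
    have h2 : g x.2 ≠ 0 := fun h => hx (by simp only [hW]; rw [h]; ring)
    have h3 : N x.1 x.2 ≠ 0 := fun h => hx (by simp only [hW]; rw [h]; ring)
    have h1' := lt_of_le_of_ne (hf x.1) (Ne.symm h1)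
    have h2' := lt_of_le_of_ne (hg x.2) (Ne.symm h2)
    have h3' := lt_of_le_of_ne (hN0 x.1 x.2) (Ne.symm h3)
    constructor
    · exact lt_of_lt_of_le (mul_pos h2' h3')
        (Finset.single_le_sum (f := fun z1 => g z1 * N x.1 z1)
          (fun z _ => mul_nonneg (hg z) (hN0 x.1 z)) (Finset.mem_univ x.2))
    · exact lt_of_lt_of_le (mul_pos h1' h3')
        (Finset.single_le_sum (f := fun v1 => f v1 * N v1 x.2)
          (fun v _ => mul_nonneg (hf v) (hN0 v x.2)) (Finset.mem_univ x.1))
  have e1 : ∑ v, ∑ z, f v * g z * N v z = ∑ x, W x := by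
    rw [Fintype.sum_prod_type]
  have e2 : ∑ v, ∑ z, f v * g z * N v z * ((∑ z1, g z1 * N v z1) * (∑ v1, f v1 * N v1 z)) =
      ∑ x, W x * (d x.1 * c x.2) := by
    rw [Fintype.sum_prod_type]
  rw [e1, e2]
  have s1 : (∑ x, W x) ^ 2 ≤ (∑ x, W x * Real.sqrt (d x.1 * c x.2)) * ∑ x, W x / Real.sqrt (d x.1 * c x.2) := by
    apply Finset.sum_sq_le_sum_mul_sum_of_sq_le_mul
    · intro x _
      exact mul_nonneg (hW0 x) (Real.sqrt_nonneg _)
    · intro x _
      exact div_nonneg (hW0 x) (Real.sqrt_nonneg _)
    · intro x _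
      apply le_of_eq
      by_cases hx : W x = 0
      · rw [hx]; ring
      · obtain ⟨h1, h2⟩ := hpos x hx
        have h3 : 0 < Real.sqrt (d x.1 * c x.2) := Real.sqrt_pos.mpr (mul_pos h1 h2)
        field_simp
  have s2 : (∑ x, W x * Real.sqrt (d x.1 * c x.2)) ^ 2 ≤ (∑ x, W x) * ∑ x, W x * (d x.1 * c x.2) := by
    apply Finset.sum_sq_le_sum_mul_sum_of_sq_le_mul
    · intro x _
      exact hW0 x
    · intro x _
      exact mul_nonneg (hW0 x) (mul_nonneg (hd0 _) (hc0 _))
    · intro x _
      apply le_of_eq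
      rw [mul_pow, Real.sq_sqrt (mul_nonneg (hd0 _) (hc0 _))]
      ring
  have s3 : (∑ x, W x / Real.sqrt (d x.1 * c x.2)) ^ 2 ≤ (∑ x, W x / d x.1) * ∑ x, W x / c x.2 := by
    apply Finset.sum_sq_le_sum_mul_sum_of_sq_le_mul
    · intro x _
      exact div_nonneg (hW0 x) (hd0 _)
    · intro x _
      exact div_nonneg (hW0 x) (hc0 _)
    · intro x _
      apply le_of_eq
      rw [div_pow, Real.sq_sqrt (mul_nonneg (hd0 _) (hc0 _)), div_mul_div_comm]
      ring
  have s4 : ∑ x, W x / d x.1 ≤ ∑ v, f v := by
    rw [Fintype.sum_prod_type]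
    apply Finset.sum_le_sum
    intro v _
    have : ∑ z, W (v, z) / d (v, z).1 = f v * (d v / d v) := by
      show ∑ z, W (v, z) / d v = f v * (d v / d v)
      rw [← Finset.sum_div, ← mul_div_assoc]
      congr 1
      simp only [hW, hd]
      rw [Finset.mul_sum]
      exact Finset.sum_congr rfl fun z _ => by ring
    rw [this]
    have h5 := div_self_le_one (d v)
    nlinarith [hf v]
  have s5 : ∑ x, W x / c x.2 ≤ ∑ z, g z := by
    rw [Fintype.sum_prod_type_right]
    apply Finset.sum_le_sum
    intro z _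
    have : ∑ v, W (v, z) / c (v, z).2 = g z * (c z / c z) := by
      show ∑ v, W (v, z) / c z = g z * (c z / c z)
      rw [← Finset.sum_div, ← mul_div_assoc]
      congr 1
      simp only [hW, hc]
      rw [Finset.mul_sum]
      exact Finset.sum_congr rfl fun v _ => by ring
    rw [this]
    have h5 := div_self_le_one (c z)
    nlinarith [hg z]
  set S := ∑ x, W x with hS
  set A := ∑ x, W x * (d x.1 * c x.2) with hA
  set X := ∑ x, W x * Real.sqrt (d x.1 * c x.2) with hX
  set Y := ∑ x, W x / Real.sqrt (d x.1 * c x.2) with hY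
  set G1 := ∑ x, W x / d x.1 with hG1
  set G2 := ∑ x, W x / c x.2 with hG2
  set F := ∑ v, f v with hF
  set G := ∑ z, g z with hG
  have hS0 : 0 ≤ S := Finset.sum_nonneg fun x _ => hW0 x
  have hA0 : 0 ≤ A := Finset.sum_nonneg fun x _ => mul_nonneg (hW0 x) (mul_nonneg (hd0 _) (hc0 _))
  have hX0 : 0 ≤ X := Finset.sum_nonneg fun x _ => mul_nonneg (hW0 x) (Real.sqrt_nonneg _)
  have hY0 : 0 ≤ Y := Finset.sum_nonneg fun x _ => div_nonneg (hW0 x) (Real.sqrt_nonneg _)
  have hG10 : 0 ≤ G1 := Finset.sum_nonneg fun x _ => div_nonneg (hW0 x) (hd0 _)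
  have hG20 : 0 ≤ G2 := Finset.sum_nonneg fun x _ => div_nonneg (hW0 x) (hc0 _)
  have hF0 : 0 ≤ F := Finset.sum_nonneg fun v _ => hf v
  have hG0 : 0 ≤ G := Finset.sum_nonneg fun z _ => hg z
  have s6 : S ^ 4 ≤ (S * A) * (F * G) := by
    have a1 : (S ^ 2) ^ 2 ≤ (X * Y) ^ 2 := pow_le_pow_left₀ (sq_nonneg S) s1 2
    have a2 : (X * Y) ^ 2 = X ^ 2 * Y ^ 2 := by ring
    have a3 : X ^ 2 * Y ^ 2 ≤ (S * A) * (G1 * G2) :=
      mul_le_mul s2 s3 (sq_nonneg Y) (mul_nonneg hS0 hA0)
    have a4 : G1 * G2 ≤ F * G := mul_le_mul s4 s5 hG20 hF0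
    have a5 : (S * A) * (G1 * G2) ≤ (S * A) * (F * G) :=
      mul_le_mul_of_nonneg_left a4 (mul_nonneg hS0 hA0)
    calc S ^ 4 = (S ^ 2) ^ 2 := by ring
      _ ≤ (X * Y) ^ 2 := a1
      _ = X ^ 2 * Y ^ 2 := a2
      _ ≤ (S * A) * (G1 * G2) := a3
      _ ≤ _ := a5
  rcases eq_or_lt_of_le hS0 with h0 | h0
  · rw [← h0]
    have := mul_nonneg (mul_nonneg hF0 hG0) hA0
    calc (0 : ℝ) ^ 3 = 0 := by norm_num
      _ ≤ _ := this
  · have : S * S ^ 3 ≤ S * (F * G * A) := by
      calc S * S ^ 3 = S ^ 4 := by ring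
        _ ≤ (S * A) * (F * G) := s6
        _ = _ := by ring
    exact le_of_mul_le_mul_left this h0

/-- product with two exceptional factors -/
theorem prod_two {P : Type} [Fintype P] [DecidableEq P] (c v : P) (h : v ≠ c) (a b q : ℕ) :
    ∏ p : P, (if p = c then a else if p = v then b else q) = a * b * q ^ (Fintype.card P - 2) := by
  rw [← Finset.mul_prod_erase Finset.univ _ (Finset.mem_univ c)]
  rw [← Finset.mul_prod_erase (Finset.univ.erase c) _ (Finset.mem_erase.mpr ⟨h, Finset.mem_univ v⟩)]
  rw [if_pos rfl, if_neg h, if_pos rfl]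
  have : ∏ x ∈ (Finset.univ.erase c).erase v, (if x = c then a else if x = v then b else q) =
      ∏ x ∈ (Finset.univ.erase c).erase v, q := by
    apply Finset.prod_congr rfl
    intro x hx
    rw [Finset.mem_erase, Finset.mem_erase] at hx
    rw [if_neg hx.2.1, if_neg hx.1]
  rw [this, Finset.prod_const, Finset.card_erase_of_mem (Finset.mem_erase.mpr ⟨h, Finset.mem_univ v⟩),
    Finset.card_erase_of_mem (Finset.mem_univ c), Finset.card_univ, Nat.sub_sub, mul_assoc]

theorem prod_one {P : Type} [Fintype P] [DecidableEq P] (c : P) (a q : ℕ) :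
    ∏ p : P, (if p = c then a else q) = a * q ^ (Fintype.card P - 1) := by
  rw [← Finset.mul_prod_erase Finset.univ _ (Finset.mem_univ c)]
  rw [if_pos rfl]
  have : ∏ x ∈ (Finset.univ.erase c), (if x = c then a else q) =
      ∏ x ∈ (Finset.univ.erase c), q := by
    apply Finset.prod_congr rfl
    intro x hx
    rw [Finset.mem_erase] at hx
    rw [if_neg hx.1]
  rw [this, Finset.prod_const, Finset.card_erase_of_mem (Finset.mem_univ c), Finset.card_univ]

theorem t_CNT : S_CNT := by
  intro P _ _ r c v hvc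
  have hr : Fintype.card (Fin (r + 1)) = r + 1 := Fintype.card_fin _
  refine ⟨?_, ?_, ?_⟩
  · have e1 : (univ.filter (fun z : Tb P r => z c = 0 ∧ z v ≠ 0)) =
        Fintype.piFinset (fun p => if p = c then ({0} : Finset (Fin (r + 1)))
          else if p = v then Finset.univ.erase 0 else Finset.univ) := by
      ext z
      rw [Finset.mem_filter, Fintype.mem_piFinset]
      constructor
      · rintro ⟨_, h1, h2⟩ p
        by_cases hp : p = c
        · rw [if_pos hp, hp, h1]; exact Finset.mem_singleton_self _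
        · rw [if_neg hp]
          by_cases hp2 : p = v
          · rw [if_pos hp2, hp2]; exact Finset.mem_erase.mpr ⟨h2, Finset.mem_univ _⟩
          · rw [if_neg hp2]; exact Finset.mem_univ _
      · intro h
        refine ⟨Finset.mem_univ _, ?_, ?_⟩
        · have := h c
          rw [if_pos rfl] at this
          exact Finset.mem_singleton.mp this
        · have := h v
          rw [if_neg hvc, if_pos rfl] at this
          exact (Finset.mem_erase.mp this).1
    rw [e1, Fintype.card_piFinset]
    rw [← one_mul (r * (r + 1) ^ (Fintype.card P - 2)), ← mul_assoc, ← prod_two c v hvc]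
    apply Finset.prod_congr rfl
    intro p _
    by_cases hp : p = c
    · rw [if_pos hp, if_pos hp, Finset.card_singleton]
    · rw [if_neg hp, if_neg hp]
      by_cases hp2 : p = v
      · rw [if_pos hp2, if_pos hp2, Finset.card_erase_of_mem (Finset.mem_univ _), Finset.card_univ, hr]
        rfl
      · rw [if_neg hp2, if_neg hp2, Finset.card_univ, hr]
  · have e1 : (univ.filter (fun z : Tb P r => z c = 0 ∧ z v = 0)) =
        Fintype.piFinset (fun p => if p = c then ({0} : Finset (Fin (r + 1)))
          else if p = v then {0} else Finset.univ) := by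
      ext z
      rw [Finset.mem_filter, Fintype.mem_piFinset]
      constructor
      · rintro ⟨_, h1, h2⟩ p
        by_cases hp : p = c
        · rw [if_pos hp, hp, h1]; exact Finset.mem_singleton_self _
        · rw [if_neg hp]
          by_cases hp2 : p = v
          · rw [if_pos hp2, hp2, h2]; exact Finset.mem_singleton_self _
          · rw [if_neg hp2]; exact Finset.mem_univ _
      · intro h
        refine ⟨Finset.mem_univ _, ?_, ?_⟩
        · have := h c
          rw [if_pos rfl] at this
          exact Finset.mem_singleton.mp this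
        · have := h v
          rw [if_neg hvc, if_pos rfl] at this
          exact Finset.mem_singleton.mp this
    rw [e1, Fintype.card_piFinset]
    rw [← one_mul ((r + 1) ^ (Fintype.card P - 2)), ← one_mul (1 * (r + 1) ^ (Fintype.card P - 2)),
      ← mul_assoc, ← prod_two c v hvc]
    apply Finset.prod_congr rfl
    intro p _
    by_cases hp : p = c
    · rw [if_pos hp, if_pos hp, Finset.card_singleton]
    · rw [if_neg hp, if_neg hp]
      by_cases hp2 : p = v
      · rw [if_pos hp2, if_pos hp2, Finset.card_singleton]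
      · rw [if_neg hp2, if_neg hp2, Finset.card_univ, hr]
  · have e1 : (univ.filter (fun z : Tb P r => z c = 0)) =
        Fintype.piFinset (fun p => if p = c then ({0} : Finset (Fin (r + 1))) else Finset.univ) := by
      ext z
      rw [Finset.mem_filter, Fintype.mem_piFinset]
      constructor
      · rintro ⟨_, h1⟩ p
        by_cases hp : p = c
        · rw [if_pos hp, hp, h1]; exact Finset.mem_singleton_self _
        · rw [if_neg hp]
          exact Finset.mem_univ _
      · intro h
        refine ⟨Finset.mem_univ _, ?_⟩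
        have := h c
        rw [if_pos rfl] at this
        exact Finset.mem_singleton.mp this
    rw [e1, Fintype.card_piFinset]
    rw [← one_mul ((r + 1) ^ (Fintype.card P - 1)), ← prod_one c]
    apply Finset.prod_congr rfl
    intro p _
    by_cases hp : p = c
    · rw [if_pos hp, if_pos hp, Finset.card_singleton]
    · rw [if_neg hp, if_neg hp, Finset.card_univ, hr]

theorem t_GEN : S_GEN := by
  intro P _ _ r c V x hcV
  have hr : Fintype.card (Fin (r + 1)) = r + 1 := Fintype.card_fin _
  set φ : P → Fin (r + 1) → ℝ := fun p s =>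
    if p = c then (if s = 0 then 1 else 0) else if p ∈ V then (if s = 0 then x else 1) else 1 with hφ
  have e1 : ∀ z : Tb P r, (if z c = 0 then ∏ v ∈ V, (if z v = 0 then x else 1) else 0) = ∏ p, φ p (z p) := by
    intro z
    have hz : ∏ p, φ p (z p) = (if z c = 0 then 1 else 0) * ∏ p ∈ Finset.univ.erase c,
        (if p ∈ V then (if z p = 0 then x else 1) else 1) := by
      rw [← Finset.mul_prod_erase Finset.univ _ (Finset.mem_univ c)]
      simp only [hφ]
      rw [if_pos trivial]
      congr 1
      apply Finset.prod_congr rfl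
      intro p hp
      rw [if_neg (Finset.ne_of_mem_erase hp)]
    rw [hz]
    have h2 : ∏ p ∈ Finset.univ.erase c, (if p ∈ V then (if z p = 0 then x else 1) else 1) =
        ∏ v ∈ V, (if z v = 0 then x else 1) := by
      rw [Finset.prod_ite_mem]
      congr 1
      ext p
      rw [Finset.mem_inter, Finset.mem_erase]
      constructor
      · exact fun h => h.2
      · exact fun h => ⟨⟨fun h1 => hcV (h1 ▸ h), Finset.mem_univ _⟩, h⟩
    rw [h2]
    by_cases h : z c = 0
    · rw [if_pos h, if_pos h, one_mul]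
    · rw [if_neg h, if_neg h, zero_mul]
  rw [Finset.sum_congr rfl fun z _ => e1 z]
  have e2 : ∑ z : Tb P r, ∏ p, φ p (z p) = ∏ p, ∑ s, φ p s := by
    rw [Finset.prod_univ_sum]
    rw [Fintype.piFinset_univ]
  rw [e2]
  have hR : ((r : ℝ) + 1) ≠ 0 := by positivity
  have e3 : ∀ p, ∑ s, φ p s = (if p = c then 1 else ((r : ℝ) + 1)) * (if p ∈ V then (x + r) / (r + 1) else 1) := by
    intro p
    simp only [hφ]
    by_cases hp : p = c
    · have hpV : p ∉ V := by rw [hp]; exact hcV
      rw [if_pos hp, if_neg hpV]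
      have : ∀ s : Fin (r + 1), (if p = c then (if s = 0 then (1 : ℝ) else 0) else
          if p ∈ V then (if s = 0 then x else 1) else 1) = if s = 0 then 1 else 0 := by
        intro s
        rw [if_pos hp]
      rw [Finset.sum_congr rfl fun s _ => this s, Finset.sum_ite_eq' Finset.univ (0 : Fin (r + 1)) fun _ => (1 : ℝ),
        if_pos (Finset.mem_univ _), one_mul]
    · rw [if_neg hp]
      by_cases hpV : p ∈ V
      · rw [if_pos hpV]
        have : ∀ s : Fin (r + 1), (if p = c then (if s = 0 then (1 : ℝ) else 0) else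
            if p ∈ V then (if s = 0 then x else 1) else 1) = 1 + (if s = 0 then (x - 1) else 0) := by
          intro s
          rw [if_neg hp, if_pos hpV]
          by_cases hs : s = 0
          · rw [if_pos hs, if_pos hs]; ring
          · rw [if_neg hs, if_neg hs]; ring
        rw [Finset.sum_congr rfl fun s _ => this s, Finset.sum_add_distrib,
          Finset.sum_ite_eq' Finset.univ (0 : Fin (r + 1)) fun _ => (x - 1),
          if_pos (Finset.mem_univ _), Finset.sum_const, Finset.card_univ, hr]
        simp only [nsmul_eq_mul, mul_one]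
        push_cast
        field_simp
        ring
      · rw [if_neg hpV]
        have : ∀ s : Fin (r + 1), (if p = c then (if s = 0 then (1 : ℝ) else 0) else
            if p ∈ V then (if s = 0 then x else 1) else 1) = 1 := by
          intro s
          rw [if_neg hp, if_neg hpV]
        rw [Finset.sum_congr rfl fun s _ => this s, Finset.sum_const, Finset.card_univ, hr]
        simp
  rw [Finset.prod_congr rfl fun p _ => e3 p, Finset.prod_mul_distrib]
  congr 1
  · rw [← Finset.mul_prod_erase Finset.univ _ (Finset.mem_univ c), if_pos rfl, one_mul]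
    have : ∏ x ∈ (Finset.univ.erase c), (if x = c then (1 : ℝ) else (r : ℝ) + 1) =
        ∏ x ∈ (Finset.univ.erase c), ((r : ℝ) + 1) := by
      apply Finset.prod_congr rfl
      intro x hx
      rw [Finset.mem_erase] at hx
      rw [if_neg hx.1]
    rw [this, Finset.prod_const, Finset.card_erase_of_mem (Finset.mem_univ c), Finset.card_univ]
  · rw [Finset.prod_ite_mem, Finset.univ_inter, Finset.prod_const]

end Pool.Agent.Q225.IC
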