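import Pool.Agent.Q255.IC.Stm

/-!
# Project IC of helper255: the entropy bound for countably many sequences
-/

set_option autoImplicit false

namespace Pool.Agent.Q14.IC

open Filter Topology MeasureTheory
open scoped ENNReal
open Pool.Agent.Q255.IC

theorem pr_strictMono : StrictMono pr := Nat.nth_strictMono Nat.infinite_setOfPred_prime

theorem add_two_le_pr (k : ℕ) : k + 2 ≤ pr k := Nat.add_two_le_nth_prime k

theorem pr_prime (k : ℕ) : (pr k).Prime := Nat.prime_nth_prime k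

theorem one_lt_pr (k : ℕ) : (1 : ℝ) < pr k := by
  have := add_two_le_pr k
  exact_mod_cast (by omega : 1 < pr k)

theorem pr_pos (k : ℕ) : (0 : ℝ) < pr k := lt_trans zero_lt_one (one_lt_pr k)

theorem wt_nonneg (h : ℝ) (k : ℕ) : 0 ≤ (pr k : ℝ) ^ (-1 - h) :=
  Real.rpow_nonneg (pr_pos k).le _

theorem wt_anti {h : ℝ} (hh : 0 < h) : Antitone fun k : ℕ => (pr k : ℝ) ^ (-1 - h) := by
  intro j k hjk
  refine Real.rpow_le_rpow_of_nonpos (pr_pos j) ?_ (by linarith)
  exact_mod_cast pr_strictMono.monotone hjk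

theorem wt_le_one {h : ℝ} (hh : 0 < h) (k : ℕ) : (pr k : ℝ) ^ (-1 - h) ≤ 1 :=
  Real.rpow_le_one_of_one_le_of_nonpos (one_lt_pr k).le (by linarith)

theorem abs_sg (ω : ℕ → Bool) (k : ℕ) : |sg ω k| = 1 := by
  unfold sg
  split_ifs <;> simp

theorem cont_sg (k : ℕ) : Continuous fun ω : ℕ → Bool => sg ω k :=
  (continuous_of_discreteTopology (f := fun b : Bool => if b then (1 : ℝ) else -1)).comp
    (continuous_apply k)

section DSlem

variable {a : ℕ → ℝ} {B h : ℝ}

theorem cont_DS (ha : ∀ k, |a k| ≤ B) (hs : Summable fun k : ℕ => (pr k : ℝ) ^ (-1 - h)) :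
    Continuous fun ω : ℕ → Bool => DS a ω h := by
  unfold DS
  refine continuous_tsum (u := fun k => B * (pr k : ℝ) ^ (-1 - h))
    (fun k => ((cont_sg k).mul continuous_const).mul continuous_const) (hs.mul_left B) ?_
  intro k ω
  rw [Real.norm_eq_abs, abs_mul, abs_mul, abs_sg, one_mul, abs_of_nonneg (wt_nonneg h k)]
  exact mul_le_mul_of_nonneg_right (ha k) (wt_nonneg h k)

theorem abs_DS (ha : ∀ k, |a k| ≤ B) (hs : Summable fun k : ℕ => (pr k : ℝ) ^ (-1 - h))
    (ω : ℕ → Bool) : |DS a ω h| ≤ B * ∑' k : ℕ, (pr k : ℝ) ^ (-1 - h) := by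
  unfold DS
  rw [← tsum_mul_left]
  refine tsum_of_norm_bounded (f := fun k => sg ω k * a k * (pr k : ℝ) ^ (-1 - h))
    ((hs.mul_left B).hasSum) fun k => ?_
  rw [Real.norm_eq_abs, abs_mul, abs_mul, abs_sg, one_mul, abs_of_nonneg (wt_nonneg h k)]
  exact mul_le_mul_of_nonneg_right (ha k) (wt_nonneg h k)

theorem integrable_of_cont (ν : Measure (ℕ → Bool)) [IsFiniteMeasure ν] {f : (ℕ → Bool) → ℝ}
    (hf : Continuous f) {C : ℝ} (hC : ∀ ω, |f ω| ≤ C) : Integrable f ν :=
  Integrable.of_bound hf.aestronglyMeasurable C (Eventually.of_forall fun ω => by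
    rw [Real.norm_eq_abs]; exact hC ω)

theorem integrable_sg (ν : Measure (ℕ → Bool)) [IsFiniteMeasure ν] (k : ℕ) (x : ℝ) :
    Integrable (fun ω : ℕ → Bool => -(sg ω k * x)) ν :=
  integrable_of_cont ν ((cont_sg k).mul continuous_const).neg (C := |x|) fun ω => by
    rw [abs_neg, abs_mul, abs_sg, one_mul]

theorem hasSum_DS (ν : Measure (ℕ → Bool)) [IsProbabilityMeasure ν] (F : Set (ℕ → Bool))
    (ha : ∀ k, |a k| ≤ B) (hs : Summable fun k : ℕ => (pr k : ℝ) ^ (-1 - h)) :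
    HasSum (fun k => (∫ ω in F, -(sg ω k * a k) ∂ν) * (pr k : ℝ) ^ (-1 - h))
      (∫ ω in F, -DS a ω h ∂ν) := by
  have key := hasSum_integral_of_summable_integral_norm (μ := ν.restrict F)
    (F := fun (k : ℕ) (ω : ℕ → Bool) => -(sg ω k * a k) * (pr k : ℝ) ^ (-1 - h))
    (fun k => (integrable_sg (ν.restrict F) k (a k)).mul_const _) (by
      refine Summable.of_nonneg_of_le (fun k => integral_nonneg fun ω => norm_nonneg _) ?_
        (hs.mul_left B)
      intro k
      have e : ∀ ω : ℕ → Bool, ‖-(sg ω k * a k) * (pr k : ℝ) ^ (-1 - h)‖ =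
          |a k| * (pr k : ℝ) ^ (-1 - h) := by
        intro ω
        rw [Real.norm_eq_abs, abs_mul, abs_neg, abs_mul, abs_sg, one_mul,
          abs_of_nonneg (wt_nonneg h k)]
      have h0 : 0 ≤ |a k| * (pr k : ℝ) ^ (-1 - h) := mul_nonneg (abs_nonneg _) (wt_nonneg h k)
      have h1 : ν.real F ≤ 1 := measureReal_le_one
      simp only [e]
      rw [setIntegral_const, smul_eq_mul]
      calc ν.real F * (|a k| * (pr k : ℝ) ^ (-1 - h)) ≤ 1 * (|a k| * (pr k : ℝ) ^ (-1 - h)) :=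
            mul_le_mul_of_nonneg_right h1 h0
        _ ≤ B * (pr k : ℝ) ^ (-1 - h) := by
            rw [one_mul]
            exact mul_le_mul_of_nonneg_right (ha k) (wt_nonneg h k))
  have e1 : (fun ω : ℕ → Bool => ∑' k, -(sg ω k * a k) * (pr k : ℝ) ^ (-1 - h)) =
      fun ω => -DS a ω h := by
    funext ω
    unfold DS
    rw [← tsum_neg]
    refine tsum_congr fun k => ?_
    ring
  rw [e1] at key
  have e2 : (fun k : ℕ => (∫ ω in F, -(sg ω k * a k) ∂ν) * (pr k : ℝ) ^ (-1 - h)) =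
      fun k : ℕ => ∫ ω in F, -(sg ω k * a k) * (pr k : ℝ) ^ (-1 - h) ∂ν := by
    funext k
    rw [integral_mul_const]
  rw [e2]
  exact key

end DSlem

theorem entropy_nonneg (ν : Measure (ℕ → Bool)) [IsProbabilityMeasure ν] (n : ℕ) :
    0 ≤ entropy ν n := by
  unfold entropy
  exact Finset.sum_nonneg fun s _ => Real.negMulLog_nonneg measureReal_nonneg measureReal_le_one

/-- the inequality for finitely many disjoint sets -/
theorem finite_ineq (h1 : S_ENT) (h2 : S_ABEL) (h3 : S_PZ) (ν : Measure (ℕ → Bool))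
    [IsProbabilityMeasure ν] (L : ℕ) (F : Fin L → Set (ℕ → Bool)) (a : Fin L → ℕ → ℝ)
    {B t c ε : ℝ} (hF : ∀ l, MeasurableSet (F l))
    (hd : Pairwise (fun l l' => Disjoint (F l) (F l')))
    (ha : ∀ l k, |a l k| ≤ B) (hB : 0 < B) (ht : 0 < t) (hc : 0 ≤ c) (hε : 0 < ε)
    (hent : ∀ᶠ n : ℕ in atTop, n * Real.log 2 - entropy ν n ≤ (c + ε) * n) :
    ∃ C : ℝ, ∀ h : ℝ, 0 < h → h ≤ 1 →
      t / B * ∑ l, ∫ ω in F l, -DS (a l) ω h ∂ν ≤
        (c + ε + (∑ l, ν.real (F l)) * Real.log (Real.cosh t)) * (-Real.log h) + C := by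
  obtain ⟨C₀, hC₀⟩ := h3
  obtain ⟨n₀, hn₀⟩ := eventually_atTop.1 hent
  obtain ⟨q, hq⟩ : ∃ q, q = ∑ l, ν.real (F l) := ⟨_, rfl⟩
  have hq0 : 0 ≤ q := by rw [hq]; exact Finset.sum_nonneg fun l _ => measureReal_nonneg
  have hcosh : 0 ≤ Real.log (Real.cosh t) := Real.log_nonneg (Real.one_le_cosh t)
  obtain ⟨κ, hκ⟩ : ∃ κ, κ = c + ε + q * Real.log (Real.cosh t) := ⟨_, rfl⟩
  have hκ0 : 0 ≤ κ := by rw [hκ]; positivity
  have hlog2 : 0 < Real.log 2 := Real.log_pos (by norm_num)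
  have hL0 : 0 ≤ Real.log (L + 1) := Real.log_nonneg (by
    have : (0 : ℝ) ≤ L := Nat.cast_nonneg L
    linarith)
  obtain ⟨C₁, hC₁⟩ : ∃ C₁, C₁ = n₀ * Real.log 2 + Real.log (L + 1) := ⟨_, rfl⟩
  have hC₁0 : 0 ≤ C₁ := by rw [hC₁]; positivity
  refine ⟨κ * C₀ + C₁, fun h hh0 hh1 => ?_⟩
  obtain ⟨hsum, hT⟩ := hC₀ h hh0 hh1
  rw [← hq, ← hκ]
  have htB : 0 < t / B := div_pos ht hB
  -- the coefficients
  have hb : ∀ k, |t / B * ∑ l, ∫ ω in F l, -(sg ω k * a l k) ∂ν| ≤ t / B * (B * q) := by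
    intro k
    rw [abs_mul, abs_of_pos htB]
    refine mul_le_mul_of_nonneg_left ?_ htB.le
    refine (Finset.abs_sum_le_sum_abs _ _).trans ?_
    rw [hq, Finset.mul_sum]
    refine Finset.sum_le_sum fun l _ => ?_
    rw [← Real.norm_eq_abs]
    refine norm_setIntegral_le_of_norm_le_const (measure_lt_top ν _) fun ω _ => ?_
    rw [norm_neg, Real.norm_eq_abs, abs_mul, abs_sg, one_mul]
    exact ha l k
  have hpart : ∀ n, ∑ k ∈ Finset.range n, t / B * ∑ l, ∫ ω in F l, -(sg ω k * a l k) ∂ν ≤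
      κ * n + C₁ := by
    intro n
    have h5 := h1 ν L F a B (t / B) hF hd ha htB.le n
    rw [div_mul_cancel₀ _ hB.ne', ← hq] at h5
    rw [← Finset.mul_sum]
    have h6 : n * Real.log 2 - entropy ν n ≤ (c + ε) * n + n₀ * Real.log 2 := by
      rcases le_or_gt n₀ n with h7 | h7
      · have h8 := hn₀ n h7
        have h9 : 0 ≤ (n₀ : ℝ) * Real.log 2 := by positivity
        linarith
      · have h8 := entropy_nonneg ν n
        have h9 : (n : ℝ) * Real.log 2 ≤ n₀ * Real.log 2 :=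
          mul_le_mul_of_nonneg_right (by exact_mod_cast h7.le) hlog2.le
        have h10 : 0 ≤ (c + ε) * n := by positivity
        linarith
    rw [hκ, hC₁]
    linarith
  have hab := h2 (fun k => t / B * ∑ l, ∫ ω in F l, -(sg ω k * a l k) ∂ν)
    (fun k => (pr k : ℝ) ^ (-1 - h)) (t / B * (B * q)) κ C₁ hb hC₁0 (wt_anti hh0)
    (wt_nonneg h) hsum hpart
  have hHS : HasSum (fun k => (t / B * ∑ l, ∫ ω in F l, -(sg ω k * a l k) ∂ν) *
      (pr k : ℝ) ^ (-1 - h)) (t / B * ∑ l, ∫ ω in F l, -DS (a l) ω h ∂ν) := by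
    have h5 := (hasSum_sum (s := Finset.univ) fun l (_ : l ∈ Finset.univ) =>
      hasSum_DS ν (F l) (ha l) hsum).mul_left (t / B)
    have e2 : (fun k : ℕ => (t / B * ∑ l, ∫ ω in F l, -(sg ω k * a l k) ∂ν) *
        (pr k : ℝ) ^ (-1 - h)) = fun k : ℕ => t / B * ∑ l, (∫ ω in F l, -(sg ω k * a l k) ∂ν) *
        (pr k : ℝ) ^ (-1 - h) := by
      funext k
      rw [mul_assoc, Finset.sum_mul]
    rw [e2]
    exact h5
  rw [hHS.tsum_eq] at hab
  have h6 : κ * ∑' k : ℕ, (pr k : ℝ) ^ (-1 - h) ≤ κ * (-Real.log h + C₀) := by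
    refine mul_le_mul_of_nonneg_left ?_ hκ0
    have := (abs_le.1 hT).2
    linarith
  have h7 : C₁ * (pr 0 : ℝ) ^ (-1 - h) ≤ C₁ * 1 :=
    mul_le_mul_of_nonneg_left (wt_le_one hh0 0) hC₁0
  have h8 : κ * (-Real.log h + C₀) = κ * (-Real.log h) + κ * C₀ := by ring
  linarith

/-- the minimum with `m` tends to `m` -/
theorem tendsto_min (h3 : S_PZ) (ν : Measure (ℕ → Bool)) [IsProbabilityMeasure ν]
    (F : Set (ℕ → Bool)) (hF : MeasurableSet F) {a : ℕ → ℝ} {B m : ℝ} (ha : ∀ k, |a k| ≤ B)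
    (hm : 0 < m)
    (hE : ∀ ω ∈ F, ∀ r : ℕ, ∀ᶠ j : ℕ in atTop,
      (m - 1 / (r + 1)) * j ≤ -DS a ω (Real.exp (-j))) :
    Tendsto (fun j : ℕ => ∫ ω in F, min (-DS a ω (Real.exp (-j)) / j) m ∂ν) atTop
      (𝓝 (m * ν.real F)) := by
  obtain ⟨C₀, hC₀⟩ := h3
  have hB : 0 ≤ B := (abs_nonneg _).trans (ha 0)
  have he0 : ∀ j : ℕ, 0 < Real.exp (-(j : ℝ)) := fun j => Real.exp_pos _
  have he1 : ∀ j : ℕ, Real.exp (-(j : ℝ)) ≤ 1 := fun j =>
    Real.exp_le_one_iff.2 (neg_nonpos.2 (Nat.cast_nonneg j))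
  have hcont : ∀ j : ℕ, Continuous fun ω : ℕ → Bool =>
      min (-DS a ω (Real.exp (-j)) / j) m := fun j =>
    ((cont_DS ha (hC₀ _ (he0 j) (he1 j)).1).neg.div_const _).min continuous_const
  have hlim : m * ν.real F = ∫ _ω in F, m ∂ν := by
    rw [setIntegral_const, smul_eq_mul, mul_comm]
  rw [hlim]
  refine tendsto_integral_of_dominated_convergence (fun _ => B * (1 + |C₀|) + m)
    (fun j => (hcont j).aestronglyMeasurable) (integrable_const _) (fun j => ?_) ?_
  · refine Eventually.of_forall fun ω => ?_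
    have hx : |-DS a ω (Real.exp (-j)) / j| ≤ B * (1 + |C₀|) := by
      rcases Nat.eq_zero_or_pos j with hj | hj
      · rw [hj]
        simp only [CharP.cast_eq_zero, div_zero, abs_zero]
        positivity
      · have hj1 : (1 : ℝ) ≤ j := by exact_mod_cast hj
        have hj0 : (0 : ℝ) < j := by linarith
        obtain ⟨hs, hT⟩ := hC₀ _ (he0 j) (he1 j)
        rw [abs_div, abs_neg, abs_of_pos hj0, div_le_iff₀ hj0]
        refine (abs_DS ha hs ω).trans ?_
        rw [mul_assoc]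
        refine mul_le_mul_of_nonneg_left ?_ hB
        rw [Real.log_exp] at hT
        have h5 := (abs_le.1 hT).2
        have h6 := le_abs_self C₀
        have h7 : |C₀| * 1 ≤ |C₀| * j := mul_le_mul_of_nonneg_left hj1 (abs_nonneg _)
        linarith
    rw [Real.norm_eq_abs, abs_le]
    have h5 := abs_le.1 hx
    constructor
    · exact le_min (by linarith) (by
        have : 0 ≤ B * (1 + |C₀|) := by positivity
        linarith)
    · exact (min_le_right _ _).trans (by
        have : 0 ≤ B * (1 + |C₀|) := by positivity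
        linarith)
  · refine (ae_restrict_iff' hF).2 (Eventually.of_forall fun ω hω => ?_)
    refine tendsto_order.2 ⟨fun x hx => ?_, fun x hx => ?_⟩
    · obtain ⟨r, hr⟩ := exists_nat_one_div_lt (sub_pos.2 hx)
      filter_upwards [hE ω hω r, eventually_gt_atTop 0] with j hj hj0
      have hj0' : (0 : ℝ) < j := by exact_mod_cast hj0
      refine lt_min ?_ hx
      rw [lt_div_iff₀ hj0']
      refine lt_of_lt_of_le ?_ hj
      exact mul_lt_mul_of_pos_right (by linarith) hj0'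
    · exact Eventually.of_forall fun j => lt_of_le_of_lt (min_le_right _ _) hx

theorem t1 (h1 : S_ENT) (h2 : S_ABEL) (h3 : S_PZ) (h4 : S_SUP) : S_T1 := by
  intro ν _ a B m c ha hm hmB hc hent
  have hB : 0 < B := lt_of_lt_of_le hm hmB
  have hu0 : 0 < m / B := div_pos hm hB
  have hu1 : m / B ≤ 1 := (div_le_one hB).2 hmB
  have hcost : 0 < cost (m / B) := (h4 (m / B) 1 hu0 hu1 one_pos).2.1
  have he0 : ∀ j : ℕ, 0 < Real.exp (-(j : ℝ)) := fun j => Real.exp_pos _
  have he1 : ∀ j : ℕ, Real.exp (-(j : ℝ)) ≤ 1 := fun j =>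
    Real.exp_le_one_iff.2 (neg_nonpos.2 (Nat.cast_nonneg j))
  have hcD : ∀ i (j : ℕ), Continuous fun ω : ℕ → Bool => DS (a i) ω (Real.exp (-j)) := by
    intro i j
    obtain ⟨C₀, hC₀⟩ := h3
    exact cont_DS (ha i) (hC₀ _ (he0 j) (he1 j)).1
  obtain ⟨E, hEdef⟩ : ∃ E : ℕ → Set (ℕ → Bool), ∀ i, E i = {ω | ∀ r : ℕ, ∀ᶠ j : ℕ in atTop,
      (m - 1 / (r + 1)) * j ≤ -DS (a i) ω (Real.exp (-j))} := ⟨_, fun i => rfl⟩
  have hEm : ∀ i, MeasurableSet (E i) := by
    intro i
    have e : E i = ⋂ r : ℕ, ⋃ J : ℕ, ⋂ j : ℕ, ⋂ _ : J ≤ j,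
        {ω | (m - 1 / (r + 1)) * j ≤ -DS (a i) ω (Real.exp (-j))} := by
      rw [hEdef]
      ext ω
      simp only [Set.mem_ofPred_eq, Set.mem_iInter, Set.mem_iUnion, eventually_atTop]
    rw [e]
    refine MeasurableSet.iInter fun r => MeasurableSet.iUnion fun J => MeasurableSet.iInter
      fun j => MeasurableSet.iInter fun _ => ?_
    exact measurableSet_le measurable_const ((hcD i j).neg.measurable)
  have hRZ : ∀ i, {ω | RZ (a i) ω m} ⊆ E i := by
    intro i ω hω
    rw [hEdef]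
    intro r
    have hr : (0 : ℝ) < 1 / ((r : ℝ) + 1) := by positivity
    have h5 : Tendsto (fun j : ℕ => Real.exp (-(j : ℝ))) atTop (𝓝[>] 0) := by
      refine tendsto_nhdsWithin_iff.2 ⟨?_, Eventually.of_forall fun j => he0 j⟩
      exact Real.tendsto_exp_neg_atTop_nhds_zero.comp tendsto_natCast_atTop_atTop
    filter_upwards [h5.eventually (hω _ hr)] with j hj
    rw [Real.log_exp] at hj
    linarith
  -- the finite bound
  have key : ∀ L : ℕ, ∑ l : Fin L, ν.real (disjointed E l) ≤ c / cost (m / B) := by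
    intro L
    obtain ⟨q, hq⟩ : ∃ q, q = ∑ l : Fin L, ν.real (disjointed E l) := ⟨_, rfl⟩
    have hq0 : 0 ≤ q := by rw [hq]; exact Finset.sum_nonneg fun l _ => measureReal_nonneg
    have hFm : ∀ l : Fin L, MeasurableSet (disjointed E (l : ℕ)) := fun l =>
      MeasurableSet.disjointed hEm _
    have hFd : Pairwise (fun l l' : Fin L => Disjoint (disjointed E (l : ℕ))
        (disjointed E (l' : ℕ))) := fun l l' hl =>
      disjoint_disjointed E (fun h => hl (Fin.ext h))
    have hFE : ∀ l : Fin L, disjointed E (l : ℕ) ⊆ E l := fun l => disjointed_le E _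
    -- for all t and ε
    have step : ∀ t ε : ℝ, 0 < t → 0 < ε →
        t / B * (m * q) ≤ c + ε + q * Real.log (Real.cosh t) := by
      intro t ε ht hε
      obtain ⟨C, hC⟩ := finite_ineq h1 h2 h3 ν L (fun l => disjointed E (l : ℕ))
        (fun l => a l) hFm hFd (fun l => ha l) hB ht hc hε (hent ε hε)
      rw [← hq] at hC
      have htB : 0 < t / B := div_pos ht hB
      have hlim1 : Tendsto (fun j : ℕ => t / B * ∑ l : Fin L, ∫ ω in disjointed E (l : ℕ),
          min (-DS (a l) ω (Real.exp (-j)) / j) m ∂ν) atTop (𝓝 (t / B * (m * q))) := by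
        refine Tendsto.const_mul _ ?_
        rw [hq, Finset.mul_sum]
        refine tendsto_finsetSum _ fun l _ => ?_
        refine tendsto_min h3 ν _ (hFm l) (ha l) hm fun ω hω => ?_
        have h6 := hFE l hω
        rw [hEdef] at h6
        exact h6
      have hlim2 : Tendsto (fun j : ℕ => (c + ε + q * Real.log (Real.cosh t)) + C / j) atTop
          (𝓝 ((c + ε + q * Real.log (Real.cosh t)) + 0)) :=
        tendsto_const_nhds.add (tendsto_const_div_atTop_nhds_zero_nat C)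
      rw [add_zero] at hlim2
      refine le_of_tendsto_of_tendsto hlim1 hlim2 ?_
      filter_upwards [eventually_gt_atTop 0] with j hj
      have hj0 : (0 : ℝ) < j := by exact_mod_cast hj
      have h6 := hC _ (he0 j) (he1 j)
      rw [Real.log_exp, neg_neg] at h6
      have h7 : ∀ l : Fin L, ∫ ω in disjointed E (l : ℕ),
          min (-DS (a l) ω (Real.exp (-j)) / j) m ∂ν ≤
          (∫ ω in disjointed E (l : ℕ), -DS (a l) ω (Real.exp (-j)) ∂ν) / j := by
        intro l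
        rw [← integral_div]
        obtain ⟨C₀, hC₀⟩ := h3
        have hs := (hC₀ _ (he0 j) (he1 j)).1
        have hbd : ∀ ω, |-DS (a l) ω (Real.exp (-j)) / j| ≤
            (B * ∑' k : ℕ, (pr k : ℝ) ^ (-1 - Real.exp (-(j : ℝ)))) / j := by
          intro ω
          rw [abs_div, abs_neg, abs_of_pos hj0]
          exact div_le_div_of_nonneg_right (abs_DS (ha l) hs ω) hj0.le
        have hci : Continuous fun ω : ℕ → Bool => -DS (a l) ω (Real.exp (-j)) / j :=
          (hcD l j).neg.div_const _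
        have hint := integrable_of_cont (ν.restrict (disjointed E (l : ℕ))) hci hbd
        exact integral_mono (hint.inf (integrable_const m)) hint fun ω => min_le_left _ _
      have h8 : t / B * ∑ l : Fin L, ∫ ω in disjointed E (l : ℕ),
          min (-DS (a l) ω (Real.exp (-j)) / j) m ∂ν ≤
          (t / B * ∑ l : Fin L, ∫ ω in disjointed E (l : ℕ), -DS (a l) ω (Real.exp (-j)) ∂ν) /
            j := by
        rw [mul_div_assoc, Finset.sum_div]
        exact mul_le_mul_of_nonneg_left (Finset.sum_le_sum fun l _ => h7 l) htB.le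
      refine h8.trans ?_
      rw [div_le_iff₀ hj0, add_mul, div_mul_cancel₀ _ hj0.ne']
      exact h6
    rw [← hq, le_div_iff₀ hcost]
    refine le_of_forall_pos_le_add fun δ hδ => ?_
    obtain ⟨-, -, t, ht, hsup⟩ := h4 (m / B) (δ / (2 * (q + 1))) hu0 hu1 (by positivity)
    have h5 := step t (δ / 2) ht (by positivity)
    have h6 : t / B * (m * q) = q * (t * (m / B)) := by ring
    rw [h6] at h5
    have h7 := mul_le_mul_of_nonneg_left hsup hq0
    have h8 : q * (δ / (2 * (q + 1))) ≤ δ / 2 := by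
      rw [mul_div_assoc', div_le_div_iff₀ (by positivity) (by norm_num)]
      nlinarith [mul_nonneg hq0 hδ.le]
    rw [mul_sub, mul_sub] at h7
    linarith
  -- conclusion
  have hsub : (⋃ i, {ω | RZ (a i) ω m}) ⊆ ⋃ i, disjointed E i := by
    rw [iUnion_disjointed]
    exact Set.iUnion_mono hRZ
  refine (measure_mono hsub).trans ?_
  refine (measure_iUnion_le _).trans ?_
  refine ENNReal.tsum_le_of_sum_range_le fun L => ?_
  have h5 : ∑ i ∈ Finset.range L, ν (disjointed E i) =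
      ENNReal.ofReal (∑ l : Fin L, ν.real (disjointed E l)) := by
    rw [ENNReal.ofReal_sum_of_nonneg fun l _ => measureReal_nonneg, Finset.sum_range]
    refine Finset.sum_congr rfl fun l _ => ?_
    rw [ofReal_measureReal]
  rw [h5]
  exact ENNReal.ofReal_le_ofReal (key L)

end Pool.Agent.Q14.IC
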