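import Pool.Agent.Q14.IC.Sid

/-! # MP_ea601a_lc, project IC: jobs TT, B -/

open Finset

namespace Pool.Agent.Q225.IC

/-- the marginal condition: on `bo c v z` the outer sum is the mass of `z v = 0` -/
theorem bo_marg {P : Type} [Fintype P] [DecidableEq P] {r : ℕ} (c : P) (u' : P → Tb P r → ℝ)
    (h0 : ∀ v z, ¬ ok c v z → u' v z = 0) (v : P) (hv : v ≠ c) :
    (∑ z : Tb P r, if bo c v z then ∑ v1, u' v1 z else 0) =
      ∑ v1, ∑ z : Tb P r, if z v = 0 then u' v1 z else 0 := by
  rw [Finset.sum_comm]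
  apply Finset.sum_congr rfl
  intro z _
  by_cases hz : z v = 0
  · have e1 : ∑ v1, (if z v = 0 then u' v1 z else 0) = ∑ v1, u' v1 z :=
      Finset.sum_congr rfl fun v1 _ => if_pos hz
    rw [e1]
    by_cases hc : z c = 0
    · rw [if_pos (show bo c v z from ⟨hv, hc, hz⟩)]
    · rw [if_neg (show ¬ bo c v z from fun h => hc h.2.1)]
      symm
      apply Finset.sum_eq_zero
      intro v1 _
      exact h0 v1 z fun h => hc h.2.1
  · rw [if_neg (show ¬ bo c v z from fun h => hz h.2.2)]
    symm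
    apply Finset.sum_eq_zero
    intro v1 _
    rw [if_neg hz]

theorem t_TT (hT1 : S_T1) (hT2 : S_T2) : S_TT := by
  intro r D δ hr hD hδ hδ1
  have hR : (0 : ℝ) < (r : ℝ) + 1 := by positivity
  set K : ℝ := 8 * ((r : ℝ) + 1) * (D + 1) / δ ^ 2 with hK
  have hr1 : (1 : ℝ) ≤ r := by exact_mod_cast hr
  have hδ2 : 0 < δ ^ 2 := by positivity
  have hK1 : 1 ≤ K := by
    rw [hK, le_div_iff₀ hδ2]
    have : δ ^ 2 ≤ 1 := by nlinarith
    nlinarith
  obtain ⟨n0, hn0⟩ := exists_nat_gt (K * Real.exp (2 * (D + 1) / δ) + 2)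
  refine ⟨n0, ?_⟩
  intro P _ _ c u u' m m' hn hu hu'
  have hn' : (n0 : ℝ) ≤ Fintype.card P := by exact_mod_cast hn
  have hE : 1 < Real.exp (2 * (D + 1) / δ) := by
    rw [Real.one_lt_exp_iff]
    positivity
  have hbig : K * Real.exp (2 * (D + 1) / δ) + 2 < Fintype.card P := lt_of_lt_of_le hn0 hn'
  have hcard : K + 2 < Fintype.card P := by nlinarith
  have hP2 : 2 ≤ Fintype.card P := by
    have : (2 : ℝ) ≤ Fintype.card P := by linarith
    exact_mod_cast this
  obtain ⟨hu0, huz, hum, hmpos, huK⟩ := id hu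
  obtain ⟨hu0', huz', hum', hmpos', huK'⟩ := id hu'
  set Q : P → ℝ := fun v => ∑ v1, ∑ z : Tb P r, if z v = 0 then u' v1 z else 0 with hQ
  set V : Finset P := Finset.univ.filter (fun v => v ≠ c ∧ Q v ≤ (1 - δ / 2) / (r + 1) * m') with hV
  have hcV : c ∉ V := by
    intro h
    rw [hV, Finset.mem_filter] at h
    exact h.2.1 rfl
  have h1 := hT1 P r c u' m' D δ V hr hP2 hu' hδ hδ1 hcV (by
    intro v hv
    rw [hV, Finset.mem_filter] at hv
    exact hv.2.2)
  have hVK : (V.card : ℝ) ≤ K := by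
    rw [hK, le_div_iff₀ hδ2]
    rw [div_le_iff₀ (by positivity)] at h1
    linarith
  have h2 := hT2 P r c u m D K V hr hP2 hu hVK hK1 (by linarith)
  have hlog : 2 * (D + 1) / δ ≤ Real.log (((Fintype.card P : ℝ) - 1) / K) := by
    rw [Real.le_log_iff_exp_le (by
      apply div_pos
      · linarith
      · linarith)]
    rw [le_div_iff₀ (by linarith)]
    linarith
  have hUV : ∑ v ∈ V, ∑ z, u v z ≤ δ / 2 * m := by
    have hS0 : 0 ≤ ∑ v ∈ V, ∑ z, u v z := Finset.sum_nonneg fun v _ => Finset.sum_nonneg fun z _ => hu0 v z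
    have h3 : (∑ v ∈ V, ∑ z, u v z) * (2 * (D + 1) / δ) ≤ (D + 1) * m :=
      le_trans (mul_le_mul_of_nonneg_left hlog hS0) h2
    have h4 : (∑ v ∈ V, ∑ z, u v z) * (2 * (D + 1) / δ) = (D + 1) * ((∑ v ∈ V, ∑ z, u v z) * 2 / δ) := by ring
    rw [h4] at h3
    have h5 := le_of_mul_le_mul_left h3 (by linarith : 0 < D + 1)
    rw [div_le_iff₀ hδ] at h5
    linarith
  have hcu : ∑ z, u c z = 0 := Finset.sum_eq_zero fun z _ => huz c z fun h => h.1 rfl
  -- the mass outside of `V`
  have hout : (1 - δ / 2) * m ≤ ∑ v, if v ∈ V ∨ v = c then 0 else ∑ z, u v z := by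
    have e1 : ∑ v, ∑ z, u v z = (∑ v, if v ∈ V ∨ v = c then 0 else ∑ z, u v z) + ∑ v ∈ V, ∑ z, u v z := by
      have e2 : ∑ v ∈ V, ∑ z, u v z = ∑ v, if v ∈ V then ∑ z, u v z else 0 := by
        rw [Finset.sum_ite_mem, Finset.univ_inter]
      rw [e2, ← Finset.sum_add_distrib]
      apply Finset.sum_congr rfl
      intro v _
      by_cases hv : v ∈ V
      · rw [if_pos (Or.inl hv), if_pos hv, zero_add]
      · by_cases hvc : v = c
        · rw [if_pos (Or.inr hvc), if_neg hv, hvc, hcu, zero_add]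
        · rw [if_neg (by rintro (h | h); exacts [hv h, hvc h]), if_neg hv, add_zero]
    rw [hum] at e1
    linarith
  have hkey : ∀ v, (if v ∈ V ∨ v = c then 0 else ∑ z, u v z) * ((1 - δ / 2) / (r + 1) * m') ≤
      ∑ z : Tb P r, if bo c v z then (∑ z1, u v z1) * (∑ v1, u' v1 z) else 0 := by
    intro v
    have e3 : ∑ z : Tb P r, (if bo c v z then (∑ z1, u v z1) * (∑ v1, u' v1 z) else 0) =
        (∑ z1, u v z1) * ∑ z : Tb P r, if bo c v z then ∑ v1, u' v1 z else 0 := by
      rw [Finset.mul_sum]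
      apply Finset.sum_congr rfl
      intro z _
      rw [mul_ite, mul_zero]
    rw [e3]
    have hs0 : 0 ≤ ∑ z1, u v z1 := Finset.sum_nonneg fun z _ => hu0 v z
    by_cases hv : v ∈ V ∨ v = c
    · rw [if_pos hv, zero_mul]
      apply mul_nonneg hs0
      apply Finset.sum_nonneg
      intro z _
      split_ifs
      · exact Finset.sum_nonneg fun v1 _ => hu0' v1 z
      · exact le_rfl
    · rw [if_neg hv]
      push Not at hv
      rw [bo_marg c u' huz' v hv.2]
      apply mul_le_mul_of_nonneg_left _ hs0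
      have hv1 := hv.1
      rw [hV, Finset.mem_filter] at hv1
      push Not at hv1
      exact (hv1 (Finset.mem_univ v) hv.2).le
  have hsum := Finset.sum_le_sum fun v (_ : v ∈ Finset.univ) => hkey v
  rw [← Finset.sum_mul] at hsum
  refine le_trans ?_ hsum
  have hq : 0 ≤ (1 - δ / 2) / (r + 1) * m' := by
    apply mul_nonneg (div_nonneg (by linarith) hR.le) hmpos'.le
  refine le_trans ?_ (mul_le_mul_of_nonneg_right hout hq)
  have e5 : (1 - δ / 2) * m * ((1 - δ / 2) / (r + 1) * m') = (1 - δ / 2) ^ 2 / (r + 1) * (m * m') := by ring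
  rw [e5]
  apply mul_le_mul_of_nonneg_right _ (mul_nonneg hmpos.le hmpos'.le)
  apply div_le_div_of_nonneg_right _ hR.le
  nlinarith

theorem t_B (hSID : S_SID) (hTT : S_TT) : S_B := by
  intro r D δ hr hD hδ hδ1
  obtain ⟨n0, hn0⟩ := hTT r D δ hr hD hδ hδ1
  refine ⟨n0, ?_⟩
  intro P _ _ A B c e hn hA hB hm hKL
  have hR : (0 : ℝ) < (r : ℝ) + 1 := by positivity
  have hr1 : (1 : ℝ) ≤ r := by exact_mod_cast hr
  set f : P → ℝ := fun v => if v ≠ c then A (xin e c v) else 0 with hf
  set g : Tb P r → ℝ := fun z => if z c = 0 then B (bv e, z) else 0 with hg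
  set N : P → Tb P r → ℝ := fun v z => if z v ≠ 0 then 1 else 0 with hN
  set u : P → Tb P r → ℝ := fun v z => if ok c v z then A (xin e c v) * B (bv e, z) else 0 with hu
  have hf0 : ∀ v, 0 ≤ f v := by
    intro v
    simp only [hf]
    by_cases h : v ≠ c
    · rw [if_pos h]; exact hA _
    · rw [if_neg h]
  have hg0 : ∀ z, 0 ≤ g z := by
    intro z
    simp only [hg]
    split_ifs
    · exact hB _
    · exact le_rfl
  have hN01 : ∀ v z, N v z = 0 ∨ N v z = 1 := by
    intro v z
    simp only [hN]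
    by_cases h : z v ≠ 0
    · rw [if_pos h]; exact Or.inr rfl
    · rw [if_neg h]; exact Or.inl rfl
  have hufg : ∀ v z, f v * g z * N v z = u v z := by
    intro v z
    simp only [hf, hg, hN, hu]
    by_cases h1 : v ≠ c
    · by_cases h2 : z c = 0
      · by_cases h3 : z v ≠ 0
        · rw [if_pos h1, if_pos h2, if_pos h3, if_pos (show ok c v z from ⟨h1, h2, h3⟩), mul_one]
        · rw [if_neg h3, if_neg (show ¬ ok c v z from fun h => h3 h.2.2), mul_zero]
      · rw [if_neg h2, if_neg (show ¬ ok c v z from fun h => h2 h.2.1), mul_zero, zero_mul]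
    · rw [if_neg h1, if_neg (show ¬ ok c v z from fun h => h1 h.1), zero_mul, zero_mul]
  have hbo : ∀ v z, f v * g z * (1 - N v z) = if bo c v z then A (xin e c v) * B (bv e, z) else 0 := by
    intro v z
    simp only [hf, hg, hN]
    by_cases h1 : v ≠ c
    · by_cases h2 : z c = 0
      · by_cases h3 : z v ≠ 0
        · rw [if_pos h3, if_neg (show ¬ bo c v z from fun h => h3 h.2.2), sub_self, mul_zero]
        · rw [if_pos h1, if_pos h2, if_neg h3, if_pos (show bo c v z from ⟨h1, h2, not_not.mp h3⟩), sub_zero, mul_one]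
      · rw [if_neg h2, if_neg (show ¬ bo c v z from fun h => h2 h.2.1), mul_zero, zero_mul]
    · rw [if_neg h1, if_neg (show ¬ bo c v z from fun h => h1 h.1), zero_mul, zero_mul]
  set m := mm A B c e with hmdef
  set M := MM A B c e (bv e) with hMdef
  have hSp : Sp c u m D := by
    refine ⟨?_, ?_, rfl, hm, ?_⟩
    · intro v z
      rw [← hufg]
      apply mul_nonneg (mul_nonneg (hf0 v) (hg0 z))
      rcases hN01 v z with h | h <;> rw [h] <;> norm_num
    · intro v z h
      simp only [hu]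
      rw [if_neg h]
    · refine le_trans (le_of_eq ?_) hKL
      unfold KL
      apply Finset.sum_congr rfl
      intro v _
      apply Finset.sum_congr rfl
      intro z _
      simp only [hu]
      by_cases h : ok c v z
      · rw [if_pos h, if_pos h]
      · rw [if_neg h, if_neg h, zero_mul]
  have hY := hn0 P c u u m m hn hSp hSp
  have hX := hSID P (Tb P r) f g N hf0 hg0 hN01
  set Y := ∑ v : P, ∑ z : Tb P r, (if bo c v z then (∑ z1, u v z1) * (∑ v1, u v1 z) else 0) with hYdef
  set X := ∑ v, ∑ z, f v * g z * N v z * ((∑ z1, g z1 * N v z1) * (∑ v1, f v1 * N v1 z)) with hXdef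
  have eS : ∑ v, ∑ z, f v * g z * N v z = m := by
    rw [hmdef]
    unfold mm
    apply Finset.sum_congr rfl
    intro v _
    apply Finset.sum_congr rfl
    intro z _
    exact hufg v z
  have eFG : (∑ v, f v) * (∑ z, g z) = m + M := by
    rw [Finset.sum_mul_sum]
    rw [hmdef, hMdef]
    unfold mm MM
    rw [← Finset.sum_add_distrib]
    apply Finset.sum_congr rfl
    intro v _
    rw [← Finset.sum_add_distrib]
    apply Finset.sum_congr rfl
    intro z _
    rw [← hbo v z]
    have := hufg v z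
    simp only [hu] at this
    rw [← this]
    ring
  have e1 : ∀ v, f v * (∑ z1, g z1 * N v z1) = ∑ z1, u v z1 := by
    intro v
    rw [Finset.mul_sum]
    exact Finset.sum_congr rfl fun z _ => by rw [← hufg]; ring
  have e2 : ∀ z, g z * (∑ v1, f v1 * N v1 z) = ∑ v1, u v1 z := by
    intro z
    rw [Finset.mul_sum]
    exact Finset.sum_congr rfl fun v _ => by rw [← hufg]; ring
  have eXY : X + Y = m ^ 2 := by
    have e3 : m ^ 2 = ∑ v, ∑ z, (∑ z1, u v z1) * (∑ v1, u v1 z) := by
      rw [← Finset.sum_mul_sum]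
      have : ∑ z, ∑ v1, u v1 z = m := by
        rw [Finset.sum_comm]
        exact hSp.2.2.1
      rw [this, hSp.2.2.1]
      ring
    rw [e3, hXdef, hYdef, ← Finset.sum_add_distrib]
    apply Finset.sum_congr rfl
    intro v _
    rw [← Finset.sum_add_distrib]
    apply Finset.sum_congr rfl
    intro z _
    have e4 : f v * g z * N v z * ((∑ z1, g z1 * N v z1) * (∑ v1, f v1 * N v1 z)) =
        N v z * ((∑ z1, u v z1) * (∑ v1, u v1 z)) := by
      rw [← e1 v, ← e2 z]
      ring
    rw [e4]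
    simp only [hN]
    by_cases h3 : z v ≠ 0
    · rw [if_pos h3, if_neg (show ¬ bo c v z from fun h => h3 h.2.2), one_mul, add_zero]
    · rw [if_neg h3, zero_mul, zero_add]
      by_cases h1 : v ≠ c
      · by_cases h2 : z c = 0
        · rw [if_pos (show bo c v z from ⟨h1, h2, not_not.mp h3⟩)]
        · rw [if_neg (show ¬ bo c v z from fun h => h2 h.2.1)]
          have : ∑ v1, u v1 z = 0 := Finset.sum_eq_zero fun v1 _ => hSp.2.1 v1 z fun h => h2 h.2.1
          rw [this, mul_zero]
      · rw [if_neg (show ¬ bo c v z from fun h => h1 h.1)]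
        have : ∑ z1, u v z1 = 0 := Finset.sum_eq_zero fun z1 _ => hSp.2.1 v z1 fun h => h1 h.1
        rw [this, zero_mul]
  rw [eS, eFG] at hX
  have hM0 : 0 ≤ M := by
    rw [hMdef]
    unfold MM
    apply Finset.sum_nonneg
    intro v _
    apply Finset.sum_nonneg
    intro z _
    split_ifs
    · exact mul_nonneg (hA _) (hB _)
    · exact le_rfl
  set q : ℝ := (1 - δ) / (r + 1) with hq
  have hq0 : 0 ≤ q := div_nonneg (by linarith) hR.le
  -- `m ^ 3 ≤ (m + M) * (m ^ 2 - q * m ^ 2)`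
  have h6 : X ≤ m ^ 2 * (1 - q) := by
    have : q * (m * m) ≤ Y := hY
    nlinarith
  have h7 : m ^ 3 ≤ (m + M) * (m ^ 2 * (1 - q)) :=
    le_trans hX (mul_le_mul_of_nonneg_left h6 (by linarith))
  have h8 : m ^ 2 * m ≤ m ^ 2 * ((m + M) * (1 - q)) := by
    calc m ^ 2 * m = m ^ 3 := by ring
      _ ≤ _ := h7
      _ = _ := by ring
  have h9 := le_of_mul_le_mul_left h8 (by positivity)
  nlinarith [mul_nonneg hq0 hM0]

end Pool.Agent.Q225.IC
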